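import Mathlib
import Pool.Agent.Lib.lead.TwoSt

set_option autoImplicit false

namespace Pool.Agent.Results.MP_b13462_lc.Undecidable

/-- Terms of the language of Lie rings. -/
inductive Term
  | var (n : ℕ)
  | zero
  | add (s t : Term)
  | neg (s : Term)
  | br (s t : Term)

/-- Goedel numbering of terms. -/
def Term.code : Term → ℕ
  | .var n => Nat.pair 0 n
  | .zero => Nat.pair 1 0
  | .add s t => Nat.pair 2 (Nat.pair s.code t.code)
  | .neg s => Nat.pair 3 s.code
  | .br s t => Nat.pair 4 (Nat.pair s.code t.code)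

/-- Value of a term in a Lie ring under an assignment of the variables. -/
def Term.eval {L : Type} [LieRing L] (ρ : ℕ → L) : Term → L
  | .var n => ρ n
  | .zero => 0
  | .add s t => s.eval ρ + t.eval ρ
  | .neg s => -s.eval ρ
  | .br s t => ⁅s.eval ρ, t.eval ρ⁆

/-- The quasi-identity with premises `H` and conclusion `s = t` holds in all finite Lie rings. -/
def Valid (H : List (Term × Term)) (s t : Term) : Prop :=
  ∀ (L : Type) [LieRing L] [Finite L] (ρ : ℕ → L),
    (∀ h ∈ H, h.1.eval ρ = h.2.eval ρ) → s.eval ρ = t.eval ρ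

open LeadTwo

attribute [local instance 100] LieRing.ofAssociativeRing

section general
variable {A L : Type} [LieRing L]

def app (f : A → L) (l : List A) (x : L) : L := l.foldl (fun x a => ⁅f a, x⁆) x

lemma app_comm (f : A → L) (g : L) (h : ∀ a, ⁅g, f a⁆ = 0) (l : List A) :
    ∀ x : L, app f l ⁅g, x⁆ = ⁅g, app f l x⁆ := by
  induction l with
  | nil => intro x; rfl
  | cons a l ih =>
    intro x
    have : ⁅f a, ⁅g, x⁆⁆ = ⁅g, ⁅f a, x⁆⁆ := by rw [leibniz_lie g, h, zero_lie, zero_add]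
    simp only [app, List.foldl_cons] at ih ⊢
    rw [this, ih]

lemma app_app (f g : A → L) (h : ∀ a b, ⁅g b, f a⁆ = 0) (l r : List A) :
    ∀ x : L, app f l (app g r x) = app g r (app f l x) := by
  induction r with
  | nil => intro x; rfl
  | cons b r ih =>
    intro x
    have e : ∀ y, app g (b :: r) y = app g r ⁅g b, y⁆ := fun y => rfl
    rw [e, e, ih, app_comm f _ (fun a => h a b)]

lemma app_append (f : A → L) (l r : List A) (x : L) : app f (l ++ r) x = app f r (app f l x) :=
  List.foldl_append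

lemma finite_zero [Finite L] (g w : L) (h0 : ⁅g, w⁆ = 0)
    (h : ∀ k, ∃ y, w = (fun x => ⁅g, x⁆)^[k] y) : w = 0 := by
  have key : ∀ k m, k < m → (fun x : L => ⁅g, x⁆)^[k] = (fun x : L => ⁅g, x⁆)^[m] → w = 0 := by
    intro k m hkm e
    obtain ⟨y, hy⟩ := h k
    obtain ⟨d, rfl⟩ := Nat.exists_eq_add_of_lt hkm
    have : w = (fun x : L => ⁅g, x⁆)^[d] ⁅g, w⁆ := by
      nth_rw 1 [hy, e]
      rw [show k + d + 1 = d + 1 + k by ring, Function.iterate_add_apply, ← hy,
        Function.iterate_succ_apply]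
    rw [this, h0]
    exact Function.iterate_fixed (lie_zero g) d
  obtain ⟨k, m, hne, e⟩ := Finite.exists_ne_map_eq_of_infinite
    fun k : ℕ => (fun x : L => ⁅g, x⁆)^[k]
  rcases lt_or_gt_of_ne hne with h1 | h1
  · exact key k m h1 e
  · exact key m k h1 e.symm

end general

section model
variable {N : Type} (μ : N → ℕ) (B : ℕ)

abbrev Wm := Option {n : N // μ n ≤ B} → ZMod 2

def ext (f : Wm μ B) (n : N) : ZMod 2 := if h : μ n ≤ B then f (some ⟨n, h⟩) else 0

def Sh (σ : N → N) : Module.End (ZMod 2) (Wm μ B) where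
  toFun f := fun o => o.elim 0 fun x => ext μ B f (σ x.1)
  map_add' f g := by
    funext o
    cases o <;> simp only [Option.elim, Pi.add_apply, ext]
    · simp
    · split_ifs <;> simp
  map_smul' c f := by
    funext o
    cases o <;> simp only [Option.elim, Pi.smul_apply, ext]
    · simp
    · split_ifs <;> simp

def Ev (v : N → ZMod 2) : Module.End (ZMod 2) (Wm μ B) where
  toFun f := fun o => o.elim 0 fun x => v x.1 * f none
  map_add' f g := by funext o; cases o <;> simp [mul_add]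
  map_smul' c f := by funext o; cases o <;> simp [mul_left_comm]

lemma Sh_Ev (σ : N → N) (v : N → ZMod 2) (hv : ∀ n, B < μ n → v n = 0) :
    ⁅Sh μ B σ, Ev μ B v⁆ = Ev μ B (v ∘ σ) := by
  rw [Ring.lie_def]
  ext f o
  cases o with
  | none => simp [Sh, Ev]
  | some x =>
    simp only [Sh, Ev, ext, LinearMap.sub_apply, Module.End.mul_apply, LinearMap.coe_mk,
      AddHom.coe_mk, Pi.sub_apply, Option.elim, mul_zero, sub_zero, Function.comp,
      LinearMap.coe_comp]
    split_ifs with h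
    · rfl
    · rw [hv _ (not_le.mp h), zero_mul]

lemma Sh_Sh (σ τ : N → N) (hτ : ∀ n, μ n ≤ μ (τ n)) :
    Sh μ B σ * Sh μ B τ = Sh μ B (τ ∘ σ) := by
  apply LinearMap.ext
  intro f
  funext o
  cases o with
  | none => rfl
  | some x =>
    simp only [Sh, ext, Module.End.mul_apply, LinearMap.coe_mk, AddHom.coe_mk, Option.elim,
      Function.comp]
    by_cases h : μ (σ x.1) ≤ B
    · rw [dif_pos h]
    · rw [dif_neg h, dif_neg (fun h' => h ((hτ _).trans h'))]

lemma Sh_comm (σ τ : N → N) (hσ : ∀ n, μ n ≤ μ (σ n)) (hτ : ∀ n, μ n ≤ μ (τ n))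
    (h : σ ∘ τ = τ ∘ σ) : ⁅Sh μ B σ, Sh μ B τ⁆ = 0 := by
  rw [Ring.lie_def, Sh_Sh μ B σ τ hτ, Sh_Sh μ B τ σ hσ, h, sub_self]

end model

section mach
variable {Q A : Type} (δ : Q → A → A → Option (Q × List A × List A))
  (cd : Q ⊕ A ⊕ A ⊕ Unit → ℕ)

def vq (q : Q) : Term := .var (cd (.inl q))
def vl (a : A) : Term := .var (cd (.inr (.inl a)))
def vr (a : A) : Term := .var (cd (.inr (.inr (.inl a))))
def vt : Term := .var (cd (.inr (.inr (.inr ()))))

def tapp (f : A → Term) (l : List A) (x : Term) : Term := l.foldl (fun x a => .br (f a) x) x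

def cfgT (c : Q × List A × List A) : Term := tapp (vr cd) c.2.2 (tapp (vl cd) c.2.1 (vq cd c.1))

lemma eval_tapp {L : Type} [LieRing L] (ρ : ℕ → L) (f : A → Term) (l : List A) :
    ∀ x : Term, (tapp f l x).eval ρ = app (fun a => (f a).eval ρ) l (x.eval ρ) := by
  induction l with
  | nil => intro x; rfl
  | cons a l ih => intro x; exact ih (.br (f a) x)

def Hyp {L : Type} [LieRing L] (ρ : ℕ → L) : Prop :=
  (∀ a b, ⁅(vr cd b).eval ρ, (vl cd a).eval ρ⁆ = 0) ∧
  (∀ a, ⁅(vt cd).eval ρ, (vl cd a).eval ρ⁆ = 0) ∧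
  (∀ a, ⁅(vt cd).eval ρ, (vr cd a).eval ρ⁆ = 0) ∧
  ∀ q x y p, δ q x y = some p →
    (cfgT cd (q, [x], [y])).eval ρ = ⁅(vt cd).eval ρ, (cfgT cd p).eval ρ⁆

lemma step_eq {L : Type} [LieRing L] (ρ : ℕ → L) (h : Hyp δ cd ρ) (c c' : Q × List A × List A)
    (hs : step δ c = some c') : (cfgT cd c).eval ρ = ⁅(vt cd).eval ρ, (cfgT cd c').eval ρ⁆ := by
  obtain ⟨h1, h2, h3, h4⟩ := h
  rcases c with ⟨q, _ | ⟨x, l⟩, _ | ⟨y, r⟩⟩ <;> simp only [step, reduceCtorEq] at hs
  obtain ⟨⟨q', u, v⟩, hp, rfl⟩ := Option.map_eq_some_iff.mp hs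
  have := h4 q x y _ hp
  simp only [cfgT, eval_tapp] at this ⊢
  rw [← List.singleton_append (l := l), ← List.singleton_append (l := r), app_append, app_append,
    app_append, app_append, ← app_app _ _ h1 l [y], this, app_comm _ _ h2, app_comm _ _ h3,
    app_app _ _ h1 l v]

lemma forever {L : Type} [LieRing L] [Finite L] (ρ : ℕ → L) (h : Hyp δ cd ρ)
    (c0 : Q × List A × List A) (hn : ¬ (StateTransition.eval (step δ) c0).Dom)
    (h0 : ⁅(vt cd).eval ρ, (cfgT cd c0).eval ρ⁆ = 0) : (cfgT cd c0).eval ρ = 0 := by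
  apply finite_zero _ _ h0
  have : ∀ k, ∃ c, StateTransition.Reaches (step δ) c0 c ∧
      (cfgT cd c0).eval ρ = (fun x => ⁅(vt cd).eval ρ, x⁆)^[k] ((cfgT cd c).eval ρ) := by
    intro k
    induction k with
    | zero => exact ⟨c0, .refl, rfl⟩
    | succ k ih =>
      obtain ⟨c, h1, h2⟩ := ih
      cases e : step δ c with
      | none => exact absurd (Part.dom_iff_mem.mpr ⟨c, StateTransition.mem_eval.mpr ⟨h1, e⟩⟩) hn
      | some c' => exact ⟨c', h1.tail e, by rw [h2, step_eq δ cd ρ h c c' e]; rfl⟩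
  intro k
  obtain ⟨c, _, h2⟩ := this k
  exact ⟨_, h2⟩

def St (p p' : (Q × List A × List A) × ℕ) : Prop := step δ p.1 = some p'.1 ∧ p'.2 = p.2 + 1

def mu (n : List A × List A × ℕ) : ℕ := n.1.length + n.2.1.length + 2 * n.2.2

lemma St_mu {p p' : (Q × List A × List A) × ℕ} (h : Relation.ReflTransGen (St δ) p p') :
    mu (p.1.2.1, p.1.2.2, p.2) ≤ mu (p'.1.2.1, p'.1.2.2, p'.2) ∧ p.2 ≤ p'.2 := by
  induction h with
  | refl => exact ⟨le_rfl, le_rfl⟩
  | @tail b c _ s ih =>
    obtain ⟨s1, s2⟩ := s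
    rcases b with ⟨⟨q, _ | ⟨x, l⟩, _ | ⟨y, r⟩⟩, j⟩ <;> simp only [step, reduceCtorEq] at s1
    obtain ⟨⟨q', u, v⟩, hp, e⟩ := Option.map_eq_some_iff.mp s1
    simp only [mu, ← e, List.length_append, List.length_cons] at ih s2 ⊢
    omega

lemma St_ctx {p p' : (Q × List A × List A) × ℕ} (h : Relation.ReflTransGen (St δ) p p')
    (l r : List A) (j : ℕ) : Relation.ReflTransGen (St δ)
      ((p.1.1, p.1.2.1 ++ l, p.1.2.2 ++ r), p.2 + j)
      ((p'.1.1, p'.1.2.1 ++ l, p'.1.2.2 ++ r), p'.2 + j) := by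
  induction h with
  | refl => exact .refl
  | @tail b c _ s ih =>
    refine ih.tail ?_
    obtain ⟨s1, s2⟩ := s
    rcases b with ⟨⟨q, _ | ⟨x, l⟩, _ | ⟨y, r⟩⟩, j⟩ <;> simp only [step, reduceCtorEq] at s1
    obtain ⟨⟨q', u, v⟩, hp, e⟩ := Option.map_eq_some_iff.mp s1
    refine ⟨?_, by simp only at s2 ⊢; omega⟩
    simp [step, hp, ← e]

lemma St_det {p p' f : (Q × List A × List A) × ℕ} (hf : step δ f.1 = none)
    (h : Relation.ReflTransGen (St δ) p p') (h' : Relation.ReflTransGen (St δ) p f) :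
    Relation.ReflTransGen (St δ) p' f := by
  induction h with
  | refl => exact h'
  | @tail b c _ s ih =>
    rcases ih.cases_head with rfl | ⟨d, s', t⟩
    · rw [s.1] at hf; cases hf
    · have : c = d := Prod.ext (Option.some.inj (s.1.symm.trans s'.1)) (s.2.trans s'.2.symm)
      rwa [this]

lemma model [Finite A] (hcd : Function.Injective cd) (c0 : Q × List A × List A)
    (hn : (StateTransition.eval (step δ) c0).Dom) :
    ∃ (L : Type) (_ : LieRing L) (_ : Finite L) (ρ : ℕ → L), Hyp δ cd ρ ∧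
      ⁅(vt cd).eval ρ, (cfgT cd c0).eval ρ⁆ = 0 ∧ (cfgT cd c0).eval ρ ≠ 0 := by
  classical
  obtain ⟨cf, hc⟩ := Part.dom_iff_mem.mp hn
  obtain ⟨h1, h2⟩ := StateTransition.mem_eval.mp hc
  obtain ⟨K, hK⟩ : ∃ K, Relation.ReflTransGen (St δ) (c0, 0) (cf, K) := by
    clear h2 hc
    induction h1 with
    | refl => exact ⟨0, .refl⟩
    | tail _ s ih =>
      obtain ⟨K, hK⟩ := ih
      exact ⟨K + 1, hK.tail ⟨s, rfl⟩⟩
  set B := mu (cf.2.1, cf.2.2, K) with hB
  have hfin : Finite {n : List A × List A × ℕ // mu n ≤ B} := by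
    apply Set.Finite.subset ((List.finite_length_le A B).prod ((List.finite_length_le A B).prod
      (Set.finite_Iic B)))
    rintro ⟨l, r, j⟩ h
    have h' : l.length + r.length + 2 * j ≤ B := h
    refine ⟨?_, ?_, ?_⟩
    · show l.length ≤ B
      omega
    · show r.length ≤ B
      omega
    · show j ≤ B
      omega
  let v : Q × List A × List A → List A × List A × ℕ → ZMod 2 := fun c n =>
    if Relation.ReflTransGen (St δ) ((c.1, c.2.1 ++ n.1, c.2.2 ++ n.2.1), n.2.2) (cf, K) then 1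
    else 0
  have hv : ∀ c n, B < mu n → v c n = 0 := by
    intro c n h
    refine if_neg fun h' => ?_
    have := (St_mu δ h').1
    simp only [mu, List.length_append] at this h hB
    omega
  let el : Q ⊕ A ⊕ A ⊕ Unit → Module.End (ZMod 2) (Wm (mu (A := A)) B) := fun g => match g with
    | .inl q => Ev mu B (v (q, [], []))
    | .inr (.inl a) => Sh mu B fun n => (a :: n.1, n.2.1, n.2.2)
    | .inr (.inr (.inl a)) => Sh mu B fun n => (n.1, a :: n.2.1, n.2.2)
    | .inr (.inr (.inr _)) => Sh mu B fun n => (n.1, n.2.1, n.2.2 + 1)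
  let ρ : ℕ → Module.End (ZMod 2) (Wm (mu (A := A)) B) := Function.extend cd el 0
  have hρ : ∀ g, ρ (cd g) = el g := fun g => hcd.extend_apply _ _ g
  have hcfg : ∀ c, (cfgT cd c).eval ρ = Ev mu B (v c) := by
    rintro ⟨q, l, r⟩
    simp only [cfgT, eval_tapp, vl, vr, vq, Term.eval, hρ, el]
    have e1 : ∀ l : List A, app (fun a => Sh mu B fun n => (a :: n.1, n.2.1, n.2.2)) l
        (Ev mu B (v (q, [], []))) = Ev mu B (v (q, l, [])) := by
      intro l
      induction l using List.reverseRecOn with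
      | nil => rfl
      | append_singleton l a ih =>
        rw [app_append, ih]
        refine (Sh_Ev mu B _ _ (hv _)).trans ?_
        congr 1
        funext n
        simp [v]
    rw [e1]
    induction r using List.reverseRecOn with
    | nil => rfl
    | append_singleton r a ih =>
      rw [app_append, ih]
      refine (Sh_Ev mu B _ _ (hv _)).trans ?_
      congr 1
      funext n
      simp [v]
  have ht : ∀ c, ⁅(vt cd).eval ρ, (cfgT cd c).eval ρ⁆ =
      Ev mu B (v c ∘ fun n => (n.1, n.2.1, n.2.2 + 1)) := by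
    intro c
    rw [hcfg]
    simp only [vt, Term.eval, hρ, el]
    exact Sh_Ev mu B _ _ (hv _)
  refine ⟨Module.End (ZMod 2) (Wm (mu (A := A)) B), inferInstance, DFunLike.finite _, ρ,
    ⟨fun a b => ?_, fun a => ?_, fun a => ?_, fun q x y p hp => ?_⟩, ?_, ?_⟩
  · simp only [vl, vr, Term.eval, hρ, el]
    exact Sh_comm mu B _ _ (fun n => by simp [mu]) (fun n => by simp [mu]) rfl
  · simp only [vl, vt, Term.eval, hρ, el]
    exact Sh_comm mu B _ _ (fun n => by simp [mu]) (fun n => by simp [mu]) rfl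
  · simp only [vr, vt, Term.eval, hρ, el]
    exact Sh_comm mu B _ _ (fun n => by simp [mu]) (fun n => by simp [mu]) rfl
  · rw [ht, hcfg]
    congr 1
    funext n
    have s : St δ ((q, [x] ++ n.1, [y] ++ n.2.1), n.2.2)
        ((p.1, p.2.1 ++ n.1, p.2.2 ++ n.2.1), n.2.2 + 1) := ⟨by simp [step, hp], rfl⟩
    simp only [v, Function.comp]
    exact if_congr ⟨fun h => St_det δ h2 (.single s) h, fun h => .head s h⟩ rfl rfl
  · rw [ht]
    have : (v c0 ∘ fun n : List A × List A × ℕ => (n.1, n.2.1, n.2.2 + 1)) = 0 := by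
      funext n
      refine if_neg fun h => ?_
      have a := St_ctx δ hK n.1 n.2.1 (n.2.2 + 1)
      rw [zero_add] at a
      have := (St_mu δ (St_det δ h2 a h)).2
      simp only at this
      omega
    rw [this]
    apply LinearMap.ext
    intro f
    funext o
    cases o <;> simp [Ev]
  · rw [hcfg]
    intro h
    have := congrFun (LinearMap.congr_fun h fun _ => 1) (some ⟨([], [], 0), by simp [mu]⟩)
    simp [Ev, v, hK] at this

end mach

theorem result : ¬ ∃ P : List (ℕ × ℕ) × ℕ × ℕ → Prop, ComputablePred P ∧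
    ∀ (H : List (Term × Term)) (s t : Term),
      P (H.map (fun h => (h.1.code, h.2.code)), s.code, t.code) ↔ Valid H s t := by
  rintro ⟨P, hP, h⟩
  obtain ⟨Q, A, fQ, fA, δ, q0, b, a0, a1, a2, h0⟩ := exists_two
  obtain ⟨cd, hcd⟩ := exists_injective_nat (Q ⊕ A ⊕ A ⊕ Unit)
  let rl : Q × A × A → Term × Term := fun x => match δ x.1 x.2.1 x.2.2 with
    | some p => (cfgT cd (x.1, [x.2.1], [x.2.2]), .br (vt cd) (cfgT cd p))
    | none => (.zero, .zero)
  have hfin := (((Set.finite_range fun x : A × A => (Term.br (vr cd x.2) (vl cd x.1), Term.zero)).union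
    (Set.finite_range fun a : A => (Term.br (vt cd) (vl cd a), Term.zero))).union
    (Set.finite_range fun a : A => (Term.br (vt cd) (vr cd a), Term.zero))).union
    (Set.finite_range rl)
  let H0 := hfin.toFinset.toList
  have hH : ∀ (L : Type) [LieRing L] (ρ : ℕ → L),
      (∀ h ∈ H0, h.1.eval ρ = h.2.eval ρ) ↔ Hyp δ cd ρ := by
    intro L _ ρ
    simp only [H0, Finset.mem_toList, Set.Finite.mem_toFinset, Set.mem_union, Set.mem_range]
    constructor
    · intro hh
      refine ⟨fun a c => hh _ (.inl (.inl (.inl ⟨(a, c), rfl⟩))),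
        fun a => hh _ (.inl (.inl (.inr ⟨a, rfl⟩))), fun a => hh _ (.inl (.inr ⟨a, rfl⟩)),
        fun q x y p hp => ?_⟩
      have := hh _ (.inr ⟨(q, x, y), rfl⟩)
      simp only [rl, hp] at this
      exact this
    · rintro ⟨h1, h2, h3, h4⟩ _ (((⟨x, rfl⟩ | ⟨a, rfl⟩) | ⟨a, rfl⟩) | ⟨⟨q, x, y⟩, rfl⟩)
      · exact h1 _ _
      · exact h2 _
      · exact h3 _
      · cases hp : δ q x y with
        | none => simp only [rl, hp]
        | some p => simp only [rl, hp]; exact h4 q x y p hp
  let c0 : ℕ → Q × List A × List A := fun n => (q0, [b], a0 :: a1 :: (List.replicate n a2 ++ [b]))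
  have key : ∀ n, Valid ((.br (vt cd) (cfgT cd (c0 n)), .zero) :: H0) (cfgT cd (c0 n)) .zero ↔
      ¬ (StateTransition.eval (step δ) (c0 n)).Dom := by
    intro n
    constructor
    · intro hv hn
      obtain ⟨L, i1, i2, ρ, m1, m2, m3⟩ := model δ cd hcd _ hn
      refine m3 (hv L ρ ?_)
      intro x hx
      rcases List.mem_cons.mp hx with rfl | hx
      · exact m2
      · exact (hH L ρ).mpr m1 x hx
    · intro hn L _ _ ρ hh
      exact forever δ cd ρ ((hH L ρ).mp fun x hx => hh x (List.mem_cons_of_mem _ hx)) _ hn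
        (hh _ List.mem_cons_self)
  have p1 : Primrec fun n => (cfgT cd (c0 n)).code := by
    have hb : ∀ t : Term, Primrec fun x : ℕ => Nat.pair 4 (Nat.pair t.code x) := fun t =>
      Primrec₂.natPair.comp (Primrec.const _) (Primrec₂.natPair.comp (Primrec.const _) Primrec.id)
    have : Primrec fun n : ℕ => (Nat.rec (cfgT cd (q0, [b], [a0, a1])).code
        (fun _ x => Nat.pair 4 (Nat.pair (vr cd a2).code x)) n : ℕ) :=
      Primrec.nat_rec₁ _ ((hb _).comp Primrec.snd).to₂
    refine ((hb (vr cd b)).comp this).of_eq fun n => ?_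
    have e : (Nat.rec (cfgT cd (q0, [b], [a0, a1])).code
        (fun _ x => Nat.pair 4 (Nat.pair (vr cd a2).code x)) n : ℕ) =
        (cfgT cd (q0, [b], a0 :: a1 :: List.replicate n a2)).code := by
      induction n with
      | zero => rfl
      | succ n ih =>
        show Nat.pair 4 (Nat.pair (vr cd a2).code (Nat.rec (cfgT cd (q0, [b], [a0, a1])).code
          (fun _ x => Nat.pair 4 (Nat.pair (vr cd a2).code x)) n : ℕ)) = _
        rw [ih]
        simp only [List.replicate_succ', cfgT, tapp, ← List.cons_append, List.foldl_append]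
        rfl
    rw [e]
    simp only [c0, cfgT, tapp, ← List.cons_append, List.foldl_append]
    rfl
  have p2 : Primrec fun n => (((Term.br (vt cd) (cfgT cd (c0 n)), Term.zero) :: H0).map
      (fun h => (h.1.code, h.2.code)), (cfgT cd (c0 n)).code, Term.zero.code) :=
    (Primrec.list_cons.comp ((Primrec₂.natPair.comp (Primrec.const 4) (Primrec₂.natPair.comp
      (Primrec.const _) p1)).pair (Primrec.const _)) (Primrec.const _)).pair
      (p1.pair (Primrec.const _))
  apply h0
  obtain ⟨f, hf, hf'⟩ := ComputablePred.computable_iff.mp hP.not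
  refine ComputablePred.computable_iff.mpr ⟨_, hf.comp p2.to_comp, ?_⟩
  funext n
  rw [← congrFun hf' _, h, key, not_not]

end Pool.Agent.Results.MP_b13462_lc.Undecidable
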